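import Mathlib

/-!
# Rational solutions of the quantum multiplication functional equation (MP_bcdf42_nt)

For a set `P` of primes, every sequence of rational functions over `ℂ` with support `S(P)` which
satisfies `f_{mn}(q) = f_m(q) f_n(q^m)` is a termwise quotient of two such sequences of
polynomials if and only if `P` has at most one element.

For two different primes `p, r ∈ P` the sequence `f_n(q) = (q^n - 2) / (q - 2)` on `S(P)` is not
such a quotient.  Indeed, let `F` be a sequence of polynomials with the functional equation, and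
let `u(a, b)`, `v(a, b)` be the multiplicities of the real number `2^(p^a r^b)` as a root of `F_p`,
`F_r`.  Then `u(a, b) + v(a + 1, b) = v(a, b) + u(a, b + 1)`.  Summing over `a` shows that
`∑_a u(a, b)` does not depend on `b`; as it vanishes for large `b`, one gets `u = 0`.  But the
numerator of `f_p` vanishes at `2^(1/p)`.
-/

set_option autoImplicit false

namespace Pool.Agent.Results.MP_bcdf42_nt.QuotientsIffOnePrime

open Polynomial

/-- `S(P)`: the positive integers all of whose prime factors lie in `P`. -/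
def S (P : Set ℕ) : Set ℕ := {n | 0 < n ∧ ∀ p : ℕ, p.Prime → p ∣ n → p ∈ P}

/-- The rational function `r(q^m)`. -/
noncomputable def subst (m : ℕ) (r : RatFunc ℂ) : RatFunc ℂ :=
  algebraMap ℂ[X] (RatFunc ℂ) (expand ℂ m r.num) / algebraMap ℂ[X] (RatFunc ℂ) (expand ℂ m r.denom)

/-- `f` is a sequence `(f_n)_{n ≥ 1}` of rational functions with support `S(P)` and
`f_{mn}(q) = f_m(q) f_n(q^m)` for all `m, n ≥ 1`. -/
def IsRationalSolution (P : Set ℕ) (f : ℕ → RatFunc ℂ) : Prop :=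
  (∀ m n : ℕ, 0 < m → 0 < n → f (m * n) = f m * subst m (f n)) ∧
    ∀ n : ℕ, 0 < n → (f n ≠ 0 ↔ n ∈ S P)

/-- `F` is an element of `Γ(P)`: a sequence `(F_n)_{n ≥ 1}` of polynomials with support `S(P)` and
`F_{mn}(q) = F_m(q) F_n(q^m)` for all `m, n ≥ 1`. -/
def IsPolynomialSolution (P : Set ℕ) (F : ℕ → ℂ[X]) : Prop :=
  (∀ m n : ℕ, 0 < m → 0 < n → F (m * n) = F m * expand ℂ m (F n)) ∧
    ∀ n : ℕ, 0 < n → (F n ≠ 0 ↔ n ∈ S P)

/-- The sequence `f` lies in `K(Γ(P))`. -/
def IsQuotient (P : Set ℕ) (f : ℕ → RatFunc ℂ) : Prop :=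
  ∃ F G : ℕ → ℂ[X], IsPolynomialSolution P F ∧ IsPolynomialSolution P G ∧
    ∀ n ∈ S P, f n = algebraMap ℂ[X] (RatFunc ℂ) (F n) / algebraMap ℂ[X] (RatFunc ℂ) (G n)

/-! ### Auxiliary facts -/

lemma mem_S_mul {P : Set ℕ} {m n : ℕ} (hm : 0 < m) (hn : 0 < n) :
    m * n ∈ S P ↔ m ∈ S P ∧ n ∈ S P := by
  constructor
  · rintro ⟨_, h⟩
    exact ⟨⟨hm, fun p hp hd => h p hp (Dvd.dvd.mul_right hd _)⟩,
      ⟨hn, fun p hp hd => h p hp (Dvd.dvd.mul_left hd _)⟩⟩
  · rintro ⟨⟨_, h1⟩, ⟨_, h2⟩⟩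
    exact ⟨Nat.mul_pos hm hn, fun p hp hd => (hp.dvd_mul.1 hd).elim (h1 p hp) (h2 p hp)⟩

lemma one_mem_S (P : Set ℕ) : 1 ∈ S P :=
  ⟨one_pos, fun p hp hd => absurd (Nat.dvd_one.1 hd) hp.one_lt.ne'⟩

lemma expand_ne_zero' {m : ℕ} (hm : 0 < m) {g : ℂ[X]} (hg : g ≠ 0) : expand ℂ m g ≠ 0 :=
  (expand_ne_zero hm).2 hg

/-- Substitution in a quotient of polynomials. -/
lemma subst_div {m : ℕ} (hm : 0 < m) (a b : ℂ[X]) (hb : b ≠ 0) :
    subst m (algebraMap ℂ[X] (RatFunc ℂ) a / algebraMap ℂ[X] (RatFunc ℂ) b) =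
      algebraMap ℂ[X] (RatFunc ℂ) (expand ℂ m a) / algebraMap ℂ[X] (RatFunc ℂ) (expand ℂ m b) := by
  set r : RatFunc ℂ := algebraMap ℂ[X] (RatFunc ℂ) a / algebraMap ℂ[X] (RatFunc ℂ) b with hr
  have hd : r.denom ≠ 0 := r.denom_ne_zero
  have h1 : algebraMap ℂ[X] (RatFunc ℂ) r.num / algebraMap ℂ[X] (RatFunc ℂ) r.denom =
      algebraMap ℂ[X] (RatFunc ℂ) a / algebraMap ℂ[X] (RatFunc ℂ) b := by
    rw [RatFunc.num_div_denom]
  have hb' : algebraMap ℂ[X] (RatFunc ℂ) b ≠ 0 := RatFunc.algebraMap_ne_zero hb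
  have hd' : algebraMap ℂ[X] (RatFunc ℂ) r.denom ≠ 0 := RatFunc.algebraMap_ne_zero hd
  have h2 : r.num * b = a * r.denom := by
    apply RatFunc.algebraMap_injective ℂ
    rw [map_mul, map_mul]
    rwa [div_eq_div_iff hd' hb'] at h1
  unfold subst
  rw [div_eq_div_iff (RatFunc.algebraMap_ne_zero (expand_ne_zero' hm hd))
    (RatFunc.algebraMap_ne_zero (expand_ne_zero' hm hb)), ← map_mul, ← map_mul, ← map_mul,
    ← map_mul, h2]

/-- The multiplicity of a root of `g(X^m)`. -/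
lemma rootMultiplicity_expand' {m : ℕ} (hm : 0 < m) {g : ℂ[X]} (hg : g ≠ 0) {z : ℂ} (hz : z ≠ 0) :
    rootMultiplicity z (expand ℂ m g) = rootMultiplicity (z ^ m) g := by
  obtain ⟨h, hh, hnd⟩ := exists_eq_pow_rootMultiplicity_mul_and_not_dvd g hg (z ^ m)
  set k := rootMultiplicity (z ^ m) g with hk
  have hroot : eval (z ^ m) h ≠ 0 := by
    intro h0
    exact hnd (dvd_iff_isRoot.2 h0)
  set Q : ℂ[X] := ∑ i ∈ Finset.range m, X ^ i * (C z) ^ (m - 1 - i) with hQ
  have hfac : (X : ℂ[X]) ^ m - C (z ^ m) = (X - C z) * Q := by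
    rw [C_pow, hQ, (Commute.all (X : ℂ[X]) (C z)).mul_geom_sum₂]
  have hQz : eval z Q ≠ 0 := by
    have : eval z Q = m * z ^ (m - 1) := by
      rw [hQ, eval_finsetSum]
      simp only [eval_mul, eval_pow, eval_X, eval_C]
      rw [geom_sum₂_self]
    rw [this]
    have : (m : ℂ) ≠ 0 := by exact_mod_cast hm.ne'
    exact mul_ne_zero this (pow_ne_zero _ hz)
  have hexp : expand ℂ m g = (Q ^ k * expand ℂ m h) * (X - C z) ^ k := by
    conv_lhs => rw [hh]
    rw [map_mul, map_pow, map_sub, expand_X, expand_C, hfac, mul_pow]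
    ring
  have hval : eval z (Q ^ k * expand ℂ m h) ≠ 0 := by
    rw [eval_mul, eval_pow, expand_eval]
    exact mul_ne_zero (pow_ne_zero _ hQz) hroot
  have hne : Q ^ k * expand ℂ m h ≠ 0 := by
    intro h0; rw [h0, eval_zero] at hval; exact hval rfl
  rw [hexp, rootMultiplicity_mul_X_sub_C_pow hne, rootMultiplicity_eq_zero hval, zero_add]

/-- The combinatorial core. -/
lemma vanish (u v : ℤ → ℤ → ℕ) (hu : {x : ℤ × ℤ | u x.1 x.2 ≠ 0}.Finite)
    (hv : {x : ℤ × ℤ | v x.1 x.2 ≠ 0}.Finite)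
    (h : ∀ a b, u a b + v (a + 1) b = v a b + u a (b + 1)) (a b : ℤ) : u a b = 0 := by
  have hu1 : ∀ b, (Function.support fun a => u a b).Finite := fun b =>
    (hu.image Prod.fst).subset fun a ha => ⟨(a, b), ha, rfl⟩
  have hv1 : ∀ b, (Function.support fun a => v a b).Finite := fun b =>
    (hv.image Prod.fst).subset fun a ha => ⟨(a, b), ha, rfl⟩
  have hv2 : ∀ b, (Function.support fun a => v (a + 1) b).Finite := fun b =>
    ((hv1 b).image fun a => a - 1).subset fun a ha => ⟨a + 1, ha, by ring⟩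
  have hshift : ∀ b, ∑ᶠ a, v (a + 1) b = ∑ᶠ a, v a b := fun b =>
    finsum_comp_equiv (Equiv.addRight (1 : ℤ)) (f := fun a => v a b)
  have hstep : ∀ b, ∑ᶠ a, u a b = ∑ᶠ a, u a (b + 1) := by
    intro b
    have h1 : ∑ᶠ a, (u a b + v (a + 1) b) = ∑ᶠ a, (v a b + u a (b + 1)) :=
      finsum_congr fun a => h a b
    rw [finsum_add_distrib (hu1 b) (hv2 b), finsum_add_distrib (hv1 b) (hu1 (b + 1)), hshift] at h1
    omega
  have hconst : ∀ n : ℕ, ∑ᶠ a, u a b = ∑ᶠ a, u a (b + n) := by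
    intro n
    induction n with
    | zero => simp
    | succ n ih => rw [ih, hstep]; push_cast; rw [add_assoc]
  -- for large `b` there is nothing
  obtain ⟨B, hB⟩ := ((hu.image Prod.snd).bddAbove)
  have hbig : ∀ c : ℤ, B < c → ∀ a, u a c = 0 := by
    intro c hc a
    by_contra h0
    exact absurd (hB ⟨(a, c), h0, rfl⟩) (not_le.2 hc)
  have hzero : ∑ᶠ a, u a b = 0 := by
    obtain ⟨n, hn⟩ : ∃ n : ℕ, B < b + n := by
      refine ⟨(B - b + 1).toNat, ?_⟩
      have := Int.self_le_toNat (B - b + 1)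
      omega
    rw [hconst n]
    simp only [hbig _ hn, finsum_zero]
  by_contra h0
  have h2 : u a b ≤ ∑ᶠ a, u a b := by
    exact single_le_finsum a (hu1 b) (fun _ => Nat.zero_le _)
  omega

/-- The real number `2^(p^a r^b)`. -/
noncomputable def pt (p r : ℕ) (a b : ℤ) : ℂ := (((2 : ℝ) ^ ((p : ℝ) ^ a * (r : ℝ) ^ b) : ℝ) : ℂ)

lemma pt_ne_zero (p r : ℕ) (a b : ℤ) : pt p r a b ≠ 0 := by
  unfold pt
  have : (0 : ℝ) < (2 : ℝ) ^ ((p : ℝ) ^ a * (r : ℝ) ^ b) := Real.rpow_pos_of_pos (by norm_num) _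
  exact_mod_cast this.ne'

lemma pt_pow_left {p r : ℕ} (hp : p.Prime) (a b : ℤ) : pt p r a b ^ p = pt p r (a + 1) b := by
  unfold pt
  rw [← Complex.ofReal_pow, ← Real.rpow_natCast, ← Real.rpow_mul (by norm_num),
    zpow_add_one₀ (by exact_mod_cast hp.ne_zero)]
  congr 2; ring

lemma pt_pow_right {p r : ℕ} (hr : r.Prime) (a b : ℤ) : pt p r a b ^ r = pt p r a (b + 1) := by
  unfold pt
  rw [← Complex.ofReal_pow, ← Real.rpow_natCast, ← Real.rpow_mul (by norm_num),
    zpow_add_one₀ (by exact_mod_cast hr.ne_zero)]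
  congr 2; ring

lemma pt_injective {p r : ℕ} (hp : p.Prime) (hr : r.Prime) (hpr : p ≠ r) :
    Function.Injective fun x : ℤ × ℤ => pt p r x.1 x.2 := by
  rintro ⟨a, b⟩ ⟨a', b'⟩ h
  have h1 : (2 : ℝ) ^ ((p : ℝ) ^ a * (r : ℝ) ^ b) = (2 : ℝ) ^ ((p : ℝ) ^ a' * (r : ℝ) ^ b') :=
    Complex.ofReal_injective h
  have h2 : (p : ℝ) ^ a * (r : ℝ) ^ b = (p : ℝ) ^ a' * (r : ℝ) ^ b' := by
    have := congrArg (Real.logb 2) h1
    rwa [Real.logb_rpow (by norm_num) (by norm_num), Real.logb_rpow (by norm_num) (by norm_num)]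
      at this
  have h3 : (p : ℚ) ^ a * (r : ℚ) ^ b = (p : ℚ) ^ a' * (r : ℚ) ^ b' := by
    have h3' : (((p : ℚ) ^ a * (r : ℚ) ^ b : ℚ) : ℝ) = (((p : ℚ) ^ a' * (r : ℚ) ^ b' : ℚ) : ℝ) := by
      push_cast; exact h2
    exact Rat.cast_injective h3'
  have : Fact p.Prime := ⟨hp⟩
  have : Fact r.Prime := ⟨hr⟩
  have hp0 : (p : ℚ) ≠ 0 := by exact_mod_cast hp.ne_zero
  have hr0 : (r : ℚ) ≠ 0 := by exact_mod_cast hr.ne_zero
  have hpr1 : padicValRat p (r : ℚ) = 0 := by
    rw [padicValRat.of_nat, padicValNat.eq_zero_of_not_dvd]; rfl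
    intro hd; exact hpr ((Nat.prime_dvd_prime_iff_eq hp hr).1 hd)
  have hpr2 : padicValRat r (p : ℚ) = 0 := by
    rw [padicValRat.of_nat, padicValNat.eq_zero_of_not_dvd]; rfl
    intro hd; exact hpr ((Nat.prime_dvd_prime_iff_eq hr hp).1 hd).symm
  have hpp : padicValRat p (p : ℚ) = 1 := by rw [padicValRat.of_nat, padicValNat_self]; rfl
  have hrr : padicValRat r (r : ℚ) = 1 := by rw [padicValRat.of_nat, padicValNat_self]; rfl
  have ea := congrArg (padicValRat p) h3
  have eb := congrArg (padicValRat r) h3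
  rw [padicValRat.mul (zpow_ne_zero _ hp0) (zpow_ne_zero _ hr0),
    padicValRat.mul (zpow_ne_zero _ hp0) (zpow_ne_zero _ hr0), padicValRat.zpow,
    padicValRat.zpow, padicValRat.zpow, padicValRat.zpow, hpr1, hpp] at ea
  rw [padicValRat.mul (zpow_ne_zero _ hp0) (zpow_ne_zero _ hr0),
    padicValRat.mul (zpow_ne_zero _ hp0) (zpow_ne_zero _ hr0), padicValRat.zpow,
    padicValRat.zpow, padicValRat.zpow, padicValRat.zpow, hpr2, hrr] at eb
  have : a = a' := by simpa using ea
  have : b = b' := by simpa using eb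
  simp [*]

/-- The polynomial `F_p` of a polynomial solution does not vanish at `2^(p^a r^b)`. -/
lemma no_root {P : Set ℕ} {F : ℕ → ℂ[X]} (hF : IsPolynomialSolution P F) {p r : ℕ} (hp : p.Prime)
    (hr : r.Prime) (hpr : p ≠ r) (hpP : p ∈ P) (hrP : r ∈ P) (a b : ℤ) :
    eval (pt p r a b) (F p) ≠ 0 := by
  have hmem : ∀ q : ℕ, q.Prime → q ∈ P → q ∈ S P := fun q hq hqP =>
    ⟨hq.pos, fun s hs hd => by rwa [(Nat.prime_dvd_prime_iff_eq hs hq).1 hd]⟩
  have hFp : F p ≠ 0 := (hF.2 p hp.pos).2 (hmem p hp hpP)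
  have hFr : F r ≠ 0 := (hF.2 r hr.pos).2 (hmem r hr hrP)
  have hfin : ∀ g : ℂ[X], g ≠ 0 →
      {x : ℤ × ℤ | rootMultiplicity (pt p r x.1 x.2) g ≠ 0}.Finite := by
    intro g hg
    have h1 : {z : ℂ | IsRoot g z}.Finite := Polynomial.finite_setOfPred_isRoot hg
    refine Set.Finite.subset (Set.Finite.preimage (pt_injective hp hr hpr).injOn h1) ?_
    intro x hx
    exact (rootMultiplicity_pos hg).1 (Nat.pos_of_ne_zero hx)
  have hrel : ∀ a b : ℤ, rootMultiplicity (pt p r a b) (F p) +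
      rootMultiplicity (pt p r (a + 1) b) (F r) = rootMultiplicity (pt p r a b) (F r) +
      rootMultiplicity (pt p r a (b + 1)) (F p) := by
    intro a b
    have h1 : F p * expand ℂ p (F r) = F r * expand ℂ r (F p) := by
      rw [← hF.1 p r hp.pos hr.pos, ← hF.1 r p hr.pos hp.pos, mul_comm]
    have h2 := congrArg (rootMultiplicity (pt p r a b)) h1
    rw [rootMultiplicity_mul (mul_ne_zero hFp (expand_ne_zero' hp.pos hFr)),
      rootMultiplicity_mul (mul_ne_zero hFr (expand_ne_zero' hr.pos hFp)),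
      rootMultiplicity_expand' hp.pos hFr (pt_ne_zero _ _ _ _),
      rootMultiplicity_expand' hr.pos hFp (pt_ne_zero _ _ _ _), pt_pow_left hp,
      pt_pow_right hr] at h2
    exact h2
  have h0 : rootMultiplicity (pt p r a b) (F p) = 0 := vanish
    (fun a b => rootMultiplicity (pt p r a b) (F p))
    (fun a b => rootMultiplicity (pt p r a b) (F r)) (hfin _ hFp) (hfin _ hFr) hrel a b
  intro hroot
  have := (rootMultiplicity_pos hFp (x := pt p r a b)).2 hroot
  omega

/-- The sequence `(q^n - 2) / (q - 2)` on `S(P)`. -/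
noncomputable def example' (P : Set ℕ) (n : ℕ) : RatFunc ℂ :=
  open Classical in
  if n ∈ S P then algebraMap ℂ[X] (RatFunc ℂ) (X ^ n - C 2) /
    algebraMap ℂ[X] (RatFunc ℂ) (X - C 2) else 0

lemma X_pow_sub_ne {n : ℕ} (hn : 0 < n) : (X ^ n - C 2 : ℂ[X]) ≠ 0 :=
  X_pow_sub_C_ne_zero hn 2

lemma example_isSolution (P : Set ℕ) : IsRationalSolution P (example' P) := by
  have hX2 : (X - C 2 : ℂ[X]) ≠ 0 := X_sub_C_ne_zero 2
  have hX2' : algebraMap ℂ[X] (RatFunc ℂ) (X - C 2) ≠ 0 := RatFunc.algebraMap_ne_zero hX2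
  constructor
  · intro m n hm hn
    by_cases h : m * n ∈ S P
    · obtain ⟨h1, h2⟩ := (mem_S_mul hm hn).1 h
      unfold example'
      rw [if_pos h, if_pos h1, if_pos h2, subst_div hm _ _ hX2]
      have e1 : expand ℂ m (X ^ n - C 2 : ℂ[X]) = X ^ (m * n) - C 2 := by
        rw [map_sub, map_pow, expand_X, expand_C, ← pow_mul]
      have e2 : expand ℂ m (X - C 2 : ℂ[X]) = X ^ m - C 2 := by
        rw [map_sub, expand_X, expand_C]
      rw [e1, e2]
      have h3 : algebraMap ℂ[X] (RatFunc ℂ) (X ^ m - C 2) ≠ 0 :=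
        RatFunc.algebraMap_ne_zero (X_pow_sub_ne hm)
      field_simp
    · have h' : example' P (m * n) = 0 := by unfold example'; rw [if_neg h]
      rw [h']
      rw [mem_S_mul hm hn, not_and_or] at h
      rcases h with h | h
      · have : example' P m = 0 := by unfold example'; rw [if_neg h]
        rw [this, zero_mul]
      · have : example' P n = 0 := by unfold example'; rw [if_neg h]
        rw [this]
        have : subst m 0 = 0 := by unfold subst; simp
        rw [this, mul_zero]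
  · intro n hn
    unfold example'
    constructor
    · intro h
      by_contra h0
      exact h (if_neg h0)
    · intro h
      rw [if_pos h]
      exact div_ne_zero (RatFunc.algebraMap_ne_zero (X_pow_sub_ne hn)) hX2'

lemma example_not_quotient {P : Set ℕ} (hP : ∀ p ∈ P, p.Prime) {p r : ℕ} (hp : p ∈ P) (hr : r ∈ P)
    (hpr : p ≠ r) : ¬ IsQuotient P (example' P) := by
  rintro ⟨F, G, hF, hG, h⟩
  have hpp := hP p hp
  have hrp := hP r hr
  have hmem : p ∈ S P :=
    ⟨hpp.pos, fun s hs hd => by rwa [(Nat.prime_dvd_prime_iff_eq hs hpp).1 hd]⟩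
  have h1 := h p hmem
  unfold example' at h1
  rw [if_pos hmem, div_eq_div_iff (RatFunc.algebraMap_ne_zero (X_sub_C_ne_zero 2))
    (RatFunc.algebraMap_ne_zero ((hG.2 p hpp.pos).2 hmem)), ← map_mul, ← map_mul] at h1
  have h2 := RatFunc.algebraMap_injective ℂ h1
  have h3 := congrArg (eval (pt p r (-1) 0)) h2
  rw [eval_mul, eval_mul, eval_sub, eval_sub, eval_pow, eval_X, eval_C, pt_pow_left hpp] at h3
  have h4 : pt p r (-1 + 1) 0 = 2 := by unfold pt; norm_num
  rw [h4, sub_self, zero_mul] at h3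
  have h5 := no_root hF hpp hrp hpr hp hr (-1) 0
  have h6 : pt p r (-1) 0 - 2 ≠ 0 := by
    intro h0
    have h7 : pt p r (-1) 0 = pt p r (-1 + 1) 0 := by rw [h4]; linear_combination h0
    have h8 := pt_injective hpp hrp hpr (a₁ := ((-1 : ℤ), (0 : ℤ)))
      (a₂ := ((-1 + 1 : ℤ), (0 : ℤ))) h7
    simp at h8
  exact mul_ne_zero h5 h6 h3.symm

/-- The polynomial solution `F_{p^k}(q) = ∏_{i < k} a(q^(p^i))` with support the powers of `p`. -/
noncomputable def powSol (P : Set ℕ) (p : ℕ) (a : ℂ[X]) (n : ℕ) : ℂ[X] :=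
  open Classical in
  if n ∈ S P then ∏ i ∈ Finset.range (padicValNat p n), expand ℂ (p ^ i) a else 0

lemma powSol_isSolution {P : Set ℕ} {p : ℕ} (hp : p.Prime) (hP : P ⊆ {p}) {a : ℂ[X]}
    (ha : a ≠ 0) : IsPolynomialSolution P (powSol P p a) := by
  have : Fact p.Prime := ⟨hp⟩
  have hpow : ∀ n ∈ S P, n = p ^ padicValNat p n := by
    intro n hn
    have h1 : ∀ {d : ℕ}, d.Prime → d ∣ n → d = p := fun {d} hd hdn =>
      Set.mem_singleton_iff.1 (hP (hn.2 d hd hdn))
    have h2 := Nat.eq_prime_pow_of_unique_prime_dvd hn.1.ne' h1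
    conv_rhs => rw [h2, padicValNat.prime_pow]
    exact h2
  constructor
  · intro m n hm hn
    by_cases h : m * n ∈ S P
    · obtain ⟨h1, h2⟩ := (mem_S_mul hm hn).1 h
      unfold powSol
      rw [if_pos h, if_pos h1, if_pos h2, padicValNat.mul hm.ne' hn.ne', Finset.prod_range_add,
        map_prod]
      congr 1
      refine Finset.prod_congr rfl fun i _ => ?_
      rw [expand_expand]
      congr 1
      conv_rhs => rw [hpow m h1]
      rw [pow_add]
    · have h' : powSol P p a (m * n) = 0 := by unfold powSol; rw [if_neg h]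
      rw [h']
      rw [mem_S_mul hm hn, not_and_or] at h
      rcases h with h | h
      · have : powSol P p a m = 0 := by unfold powSol; rw [if_neg h]
        rw [this, zero_mul]
      · have : powSol P p a n = 0 := by unfold powSol; rw [if_neg h]
        rw [this, map_zero, mul_zero]
  · intro n hn
    unfold powSol
    constructor
    · intro h
      by_contra h0
      exact h (if_neg h0)
    · intro h
      rw [if_pos h, Finset.prod_ne_zero_iff]
      intro i _
      exact expand_ne_zero' (pow_pos hp.pos i) ha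

lemma quotient_of_subset {P : Set ℕ} {p : ℕ} (hp : p.Prime) (hP : P ⊆ {p}) {f : ℕ → RatFunc ℂ}
    (hf : IsRationalSolution P f) : IsQuotient P f := by
  have : Fact p.Prime := ⟨hp⟩
  have hf1 : f 1 = 1 := by
    have h1 := hf.1 1 1 one_pos one_pos
    have h2 : subst 1 (f 1) = f 1 := by
      unfold subst; rw [expand_one, expand_one, RatFunc.num_div_denom]
    rw [h2, mul_one] at h1
    have h3 : f 1 ≠ 0 := (hf.2 1 one_pos).2 (one_mem_S P)
    exact (mul_eq_left₀ h3).1 h1.symm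
  -- numerator and denominator of `f p`, replaced by `1` if `p ∉ P`
  obtain ⟨a, b, ha, hb, hab⟩ : ∃ a b : ℂ[X], a ≠ 0 ∧ b ≠ 0 ∧
      (p ∈ P → f p = algebraMap ℂ[X] (RatFunc ℂ) a / algebraMap ℂ[X] (RatFunc ℂ) b) := by
    by_cases h : p ∈ P
    · have hmem : p ∈ S P :=
        ⟨hp.pos, fun s hs hd => by rwa [(Nat.prime_dvd_prime_iff_eq hs hp).1 hd]⟩
      have h0 : f p ≠ 0 := (hf.2 p hp.pos).2 hmem
      exact ⟨(f p).num, (f p).denom, RatFunc.num_ne_zero h0, (f p).denom_ne_zero,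
        fun _ => (RatFunc.num_div_denom _).symm⟩
    · exact ⟨1, 1, one_ne_zero, one_ne_zero, fun h' => absurd h' h⟩
  refine ⟨powSol P p a, powSol P p b, powSol_isSolution hp hP ha, powSol_isSolution hp hP hb, ?_⟩
  -- induction on the exponent
  have hpow : ∀ n ∈ S P, n = p ^ padicValNat p n := by
    intro n hn
    have h1 : ∀ {d : ℕ}, d.Prime → d ∣ n → d = p := fun {d} hd hdn =>
      Set.mem_singleton_iff.1 (hP (hn.2 d hd hdn))
    have h2 := Nat.eq_prime_pow_of_unique_prime_dvd hn.1.ne' h1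
    conv_rhs => rw [h2, padicValNat.prime_pow]
    exact h2
  have key : ∀ k : ℕ, p ^ k ∈ S P → f (p ^ k) =
      algebraMap ℂ[X] (RatFunc ℂ) (∏ i ∈ Finset.range k, expand ℂ (p ^ i) a) /
        algebraMap ℂ[X] (RatFunc ℂ) (∏ i ∈ Finset.range k, expand ℂ (p ^ i) b) := by
    intro k
    induction k with
    | zero => intro _; simp [hf1]
    | succ k ih =>
      intro hk
      rw [pow_succ] at hk ⊢
      obtain ⟨h1, h2⟩ := (mem_S_mul (pow_pos hp.pos k) hp.pos).1 hk
      have hpP : p ∈ P := h2.2 p hp dvd_rfl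
      rw [hf.1 _ _ (pow_pos hp.pos k) hp.pos, ih h1, hab hpP,
        subst_div (pow_pos hp.pos k) _ _ hb, Finset.prod_range_succ, Finset.prod_range_succ,
        map_mul, map_mul, div_mul_div_comm]
  intro n hn
  unfold powSol
  rw [if_pos hn, if_pos hn]
  have h1 := key (padicValNat p n) (by rw [← hpow n hn]; exact hn)
  rwa [← hpow n hn] at h1

/-- Let `P` be a set of primes. Every sequence of rational functions with support `S(P)`
satisfying the functional equation lies in `K(Γ(P))` if and only if `P` has at most one element. -/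
theorem result (P : Set ℕ) (hP : ∀ p ∈ P, p.Prime) :
    (∀ f : ℕ → RatFunc ℂ, IsRationalSolution P f → IsQuotient P f) ↔ P.Subsingleton := by
  constructor
  · intro h p hp r hr
    by_contra hpr
    exact example_not_quotient hP hp hr hpr (h _ (example_isSolution P))
  · intro h f hf
    rcases P.eq_empty_or_nonempty with rfl | ⟨p, hp⟩
    · exact quotient_of_subset Nat.prime_two (Set.empty_subset _) hf
    · exact quotient_of_subset (hP p hp) (fun q hq => h hq hp) hf

end Pool.Agent.Results.MP_bcdf42_nt.QuotientsIffOnePrime
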